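import Pool.Agent.H32.RK.TargetsA

/-!
# (AQA) the number of the forms which vanish at two vectors
-/

set_option autoImplicit false

open Finset NumberField Pool.Agent.H32.RQ Pool.Agent.H32.RK

namespace Pool.Agent.H63.RK

variable {R : Type} [CommRing R] {s : ℕ}

/-- the value at `x` as a linear map -/
def Lq (x : Fin s → R) : (Mon s → R) →ₗ[R] R where
  toFun f := qf f x
  map_add' f g := by
    unfold qf
    rw [← Finset.sum_add_distrib]
    exact Finset.sum_congr rfl fun p _ => by rw [Pi.add_apply, add_mul]
  map_smul' r f := by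
    unfold qf
    rw [RingHom.id_apply, smul_eq_mul, Finset.mul_sum]
    exact Finset.sum_congr rfl fun p _ => by rw [Pi.smul_apply, smul_eq_mul, mul_assoc]

theorem Lq_single (x : Fin s → R) (p : Mon s) :
    Lq x (Pi.single p 1) = x p.1.1 * x p.1.2 := by
  change qf (Pi.single p 1) x = _
  unfold qf
  rw [Finset.sum_eq_single p]
  · rw [Pi.single_eq_same, one_mul]
  · intro q _ hq
    rw [Pi.single_eq_of_ne hq, zero_mul]
  · intro h
    exact absurd (Finset.mem_univ p) h

theorem card_ker [Finite R] {M : Type} [AddCommGroup M] [Module R M]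
    (φ : (Mon s → R) →ₗ[R] M) :
    Nat.card (LinearMap.ker φ) * Nat.card (LinearMap.range φ) = Nat.card R ^ md s := by
  have h1 := Submodule.card_eq_card_quotient_mul_card (LinearMap.ker φ)
  rw [Nat.card_congr φ.quotKerEquivRange.toEquiv] at h1
  have h2 : Nat.card (Mon s → R) = Nat.card R ^ md s := by
    rw [Nat.card_fun, Nat.card_eq_fintype_card (α := Mon s)]
  rw [← h2, h1]

theorem pf_AQA : T_AQA := by
  intro R _ _ s x y hx hy
  obtain ⟨a, ha⟩ := hx
  obtain ⟨b, hb⟩ := hy
  constructor
  · have h1 : LinearMap.range (Lq x) = ⊤ := by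
      rw [Ideal.eq_top_iff_one]
      have h2 : ∀ i l : Fin s, x i * x l ∈ LinearMap.range (Lq x) := by
        intro i l
        rcases le_total i l with h | h
        · exact ⟨Pi.single ⟨(i, l), h⟩ 1, Lq_single x _⟩
        · refine ⟨Pi.single ⟨(l, i), h⟩ 1, ?_⟩
          rw [Lq_single, mul_comm]
      have h3 : (1 : R) = ∑ i, ∑ l, (a i * a l) • (x i * x l) := by
        have h4 : (1 : R) = (∑ i, a i * x i) * (∑ i, a i * x i) := by rw [ha, mul_one]
        rw [h4, Finset.sum_mul_sum]
        refine Finset.sum_congr rfl fun i _ => Finset.sum_congr rfl fun l _ => ?_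
        rw [smul_eq_mul]; ring
      rw [h3]
      exact Submodule.sum_mem _ fun i _ => Submodule.sum_mem _ fun l _ =>
        Submodule.smul_mem _ _ (h2 i l)
    have h2 := card_ker (Lq x)
    rw [h1, Nat.card_congr (Submodule.topEquiv (R := R) (M := R)).toEquiv] at h2
    exact h2
  · set φ : (Mon s → R) →ₗ[R] (R × R) := (Lq x).prod (Lq y) with hφ
    set V := LinearMap.range φ with hV
    have hφf : ∀ f, φ f = (Lq x f, Lq y f) := fun f => rfl
    have hfin : Finite V := Finite.of_injective (fun v : V => (v : R × R)) Subtype.val_injective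
    have hker : Nat.card {f : Mon s → R // qf f x = 0 ∧ qf f y = 0} =
        Nat.card (LinearMap.ker φ) := by
      refine Nat.card_congr (Equiv.subtypeEquivRight fun f => ?_)
      rw [LinearMap.mem_ker, hφf, Prod.mk_eq_zero]
      rfl
    have hmem : ∀ i l : Fin s, ((x i * x l, y i * y l) : R × R) ∈ V := by
      intro i l
      rcases le_total i l with h | h
      · refine ⟨Pi.single ⟨(i, l), h⟩ 1, ?_⟩
        rw [hφf, Lq_single, Lq_single]
      · refine ⟨Pi.single ⟨(l, i), h⟩ 1, ?_⟩
        rw [hφf, Lq_single, Lq_single, mul_comm, mul_comm (y l)]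
    set c : R := ∑ i, a i * y i with hc
    have hone : ((1, c * c) : R × R) ∈ V := by
      have h3 : ((1, c * c) : R × R) = ∑ i, ∑ l, (a i * a l) • (x i * x l, y i * y l) := by
        have h4 : (1 : R) = ∑ i, ∑ l, a i * a l * (x i * x l) := by
          have h5 : (1 : R) = (∑ i, a i * x i) * (∑ i, a i * x i) := by rw [ha, mul_one]
          rw [h5, Finset.sum_mul_sum]
          exact Finset.sum_congr rfl fun i _ => Finset.sum_congr rfl fun l _ => by ring
        have h6 : c * c = ∑ i, ∑ l, a i * a l * (y i * y l) := by
          rw [hc, Finset.sum_mul_sum]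
          exact Finset.sum_congr rfl fun i _ => Finset.sum_congr rfl fun l _ => by ring
        apply Prod.ext
        · rw [Prod.fst_sum]
          simp only [Prod.fst_sum, Prod.smul_fst, smul_eq_mul]
          exact h4
        · rw [Prod.snd_sum]
          simp only [Prod.snd_sum, Prod.smul_snd, smul_eq_mul]
          exact h6
      rw [h3]
      exact Submodule.sum_mem _ fun i _ => Submodule.sum_mem _ fun l _ =>
        Submodule.smul_mem _ _ (hmem i l)
    have h0 : ∀ i l, ((0, y i * y l - c * c * (x i * x l)) : R × R) ∈ V := by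
      intro i l
      have h1 := V.sub_mem (hmem i l) (V.smul_mem (x i * x l) hone)
      have h2 : ((x i * x l, y i * y l) : R × R) - (x i * x l) • ((1, c * c) : R × R) =
          (0, y i * y l - c * c * (x i * x l)) := by
        apply Prod.ext
        · simp
        · simp only [Prod.snd_sub, Prod.smul_snd, smul_eq_mul]
          ring
      rwa [h2] at h1
    set c' : R := c * c * ∑ l, b l * x l with hc'
    have h1 : ∀ i, ((0, y i - c' * x i) : R × R) ∈ V := by
      intro i
      have h2 : ((0, y i - c' * x i) : R × R) =
          ∑ l, b l • ((0, y i * y l - c * c * (x i * x l)) : R × R) := by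
        apply Prod.ext
        · rw [Prod.fst_sum]; simp
        · rw [Prod.snd_sum]
          simp only [Prod.smul_snd, smul_eq_mul]
          have h3 : ∀ l, b l * (y i * y l - c * c * (x i * x l)) =
              y i * (b l * y l) - c * c * x i * (b l * x l) := fun l => by ring
          rw [Finset.sum_congr rfl (fun l _ => h3 l), Finset.sum_sub_distrib,
            ← Finset.mul_sum, ← Finset.mul_sum, hb, hc']
          ring
      rw [h2]
      exact Submodule.sum_mem _ fun l _ => V.smul_mem _ (h0 i l)
    have h2 : ∀ i j, ((0, mnr x y i j) : R × R) ∈ V := by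
      intro i j
      have h3 := V.sub_mem (V.smul_mem (x i) (h1 j)) (V.smul_mem (x j) (h1 i))
      have h4 : x i • ((0, y j - c' * x j) : R × R) - x j • ((0, y i - c' * x i) : R × R) =
          (0, mnr x y i j) := by
        apply Prod.ext
        · simp
        · simp only [Prod.snd_sub, Prod.smul_snd, smul_eq_mul]
          rw [mnr]; ring
      rwa [h4] at h3
    have hgi : ∀ h ∈ gi x y, ((0, h) : R × R) ∈ V := by
      have h3 : gi x y ≤ V.comap (LinearMap.inr R R R) := by
        rw [gi, Ideal.span_le]
        rintro _ ⟨p, rfl⟩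
        exact h2 p.1 p.2
      intro h hh
      exact h3 hh
    have hinj : Nat.card R * Nat.card (gi x y) ≤ Nat.card V := by
      rw [← Nat.card_prod]
      refine Nat.card_le_card_of_injective
        (fun q : R × gi x y => (⟨(q.1, q.1 * (c * c) + q.2), by
          have h3 := V.add_mem (V.smul_mem q.1 hone) (hgi q.2 q.2.2)
          have h4 : q.1 • ((1, c * c) : R × R) + ((0, (q.2 : R)) : R × R) =
              (q.1, q.1 * (c * c) + q.2) := by
            apply Prod.ext
            · simp
            · simp
          rwa [h4] at h3⟩ : V)) ?_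
      rintro ⟨r, h⟩ ⟨r', h'⟩ he
      have h3 := congrArg Subtype.val he
      have h4 : r = r' := congrArg Prod.fst h3
      subst h4
      have h5 : r * (c * c) + (h : R) = r * (c * c) + (h' : R) := congrArg Prod.snd h3
      have h6 : h = h' := Subtype.ext (add_left_cancel h5)
      rw [h6]
    have hquo : Nat.card R = Nat.card (gi x y) * Nat.card (R ⧸ gi x y) := by
      exact Submodule.card_eq_card_quotient_mul_card (gi x y)
    have hN := card_ker φ
    rw [hker, ← hN]
    calc Nat.card (LinearMap.ker φ) * Nat.card R ^ 2
        = Nat.card (LinearMap.ker φ) * (Nat.card R * Nat.card (gi x y)) *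
            Nat.card (R ⧸ gi x y) := by
          have h3 : Nat.card R ^ 2 = Nat.card R * (Nat.card (gi x y) * Nat.card (R ⧸ gi x y)) := by
            rw [← hquo]; ring
          rw [h3]; ring
      _ ≤ Nat.card (LinearMap.ker φ) * Nat.card V * Nat.card (R ⧸ gi x y) :=
          Nat.mul_le_mul_right _ (Nat.mul_le_mul_left _ hinj)

end Pool.Agent.H63.RK
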