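import Pool.Agent.H32.RK.TargetsA
import Pool.Agent.H32.RK.TargetsB

/-!
# (FRQ) the frequencies: from the model to the field
-/

set_option autoImplicit false

open Finset NumberField Pool.Agent.H32.RQ Pool.Agent.H32.RK

namespace Pool.Agent.H63.RK

section

variable {K : Type} [Field K] [NumberField K] {ι : Type} [Fintype ι]

theorem key_frq (ω : Module.Basis ι ℤ (𝓞 K)) (Q : ℕ) [NeZero Q] (t : ι → ZMod Q) (θ : K)
    (h : ∀ l, Q * Algebra.trace ℚ K (θ * ω l) = ((t l).val : ℚ)) (ν : 𝓞 K) (r : ι) :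
    ∃ n : ℤ, Q * Algebra.trace ℚ K (θ * ν * ω r) = n ∧ (n : ZMod Q) = lf ω Q t ν r := by
  refine ⟨∑ m, (t m).val * ω.repr (ν * ω r) m, ?_, ?_⟩
  · have h1 : ((ν * ω r : 𝓞 K) : K) = ∑ m, ((ω.repr (ν * ω r) m : ℤ) : K) * (ω m : K) := by
      have h2 := ω.sum_repr (ν * ω r)
      have h3 := congrArg (algebraMap (𝓞 K) K) h2
      rw [map_sum] at h3
      rw [show ((ν * ω r : 𝓞 K) : K) = algebraMap (𝓞 K) K (ν * ω r) from rfl, ← h3]
      refine Finset.sum_congr rfl fun m _ => ?_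
      rw [zsmul_eq_mul, map_mul, map_intCast]
    have h4 : θ * ν * ω r = ∑ m, (((ω.repr (ν * ω r) m : ℤ) : ℚ)) • (θ * ω m) := by
      have h5 : θ * ν * ω r = θ * ((ν * ω r : 𝓞 K) : K) := by
        have h6 : ((ν * ω r : 𝓞 K) : K) = (ν : K) * (ω r : K) :=
          map_mul (algebraMap (𝓞 K) K) ν (ω r)
        rw [h6, mul_assoc]
      rw [h5, h1, Finset.mul_sum]
      refine Finset.sum_congr rfl fun m _ => ?_
      rw [Algebra.smul_def]
      have h6 : (algebraMap ℚ K) ((ω.repr (ν * ω r) m : ℤ) : ℚ) =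
        ((ω.repr (ν * ω r) m : ℤ) : K) := by simp
      rw [h6]; ring
    rw [h4, map_sum, Finset.mul_sum]
    push_cast
    refine Finset.sum_congr rfl fun m _ => ?_
    rw [map_smul, smul_eq_mul, ← h m]
    ring
  · rw [lf]
    push_cast
    refine Finset.sum_congr rfl fun m _ => ?_
    rw [ZMod.natCast_val, ZMod.cast_id', id_eq]

end

theorem pf_FRQ (K : Type) [Field K] [NumberField K] (hDUB : T_DUB K) (hCMD : T_CMD K) :
    T_FRQ K := by
  intro ι _ _ ω
  obtain ⟨C, hC1, -, hC⟩ := hCMD ι ω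
  obtain ⟨hex, -, hInD⟩ := hDUB ι ω
  refine ⟨C, hC1, ?_⟩
  intro s A J Q _ x y z hA hQ hz
  have hQ0 : (Q : ℚ) ≠ 0 := by exact_mod_cast (NeZero.ne Q)
  obtain ⟨θ, hθ0⟩ := hex (fun l => ((z.1 l).val : ℚ) / Q)
  obtain ⟨φ, hφ0⟩ := hex (fun l => ((z.2 l).val : ℚ) / Q)
  have hθ : ∀ l, Q * Algebra.trace ℚ K (θ * ω l) = ((z.1 l).val : ℚ) := by
    intro l; rw [hθ0]; field_simp
  have hφ : ∀ l, Q * Algebra.trace ℚ K (φ * ω l) = ((z.2 l).val : ℚ) := by
    intro l; rw [hφ0]; field_simp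
  have hz' := (Finset.mem_filter.1 hz).2
  -- the integers
  have hint : ∀ (p : Mon s) (r : ι), ∃ (e n : ℤ), |e| < (J : ℤ) ∧
      Algebra.trace ℚ K ((θ * nu x p + φ * nu y p) * ω r) = (e : ℚ) / Q + n := by
    intro p r
    obtain ⟨n1, h1, h1'⟩ := key_frq ω Q z.1 θ hθ (nu x p) r
    obtain ⟨n2, h2, h2'⟩ := key_frq ω Q z.2 φ hφ (nu y p) r
    have h3 := hz' p r
    set u : ZMod Q := lf ω Q z.1 (nu x p) r + lf ω Q z.2 (nu y p) r with hu
    have h4 : ((n1 + n2 : ℤ) : ZMod Q) = ((u.valMinAbs : ℤ) : ZMod Q) := by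
      rw [ZMod.coe_valMinAbs, hu, ← h1', ← h2']
      push_cast; ring
    rw [ZMod.intCast_eq_intCast_iff_dvd_sub] at h4
    obtain ⟨k, hk⟩ := h4
    refine ⟨u.valMinAbs, -k, h3, ?_⟩
    have h5 : (Q : ℚ) * Algebra.trace ℚ K ((θ * nu x p + φ * nu y p) * ω r) = n1 + n2 := by
      rw [← h1, ← h2, add_mul, map_add]; ring
    have h6 : ((n1 + n2 : ℤ) : ℚ) = (u.valMinAbs : ℚ) - Q * k := by
      have h7 : (n1 + n2 : ℤ) = u.valMinAbs - Q * k := by rw [← hk]; ring
      rw [h7]; push_cast; ring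
    push_cast at h6
    apply mul_left_cancel₀ hQ0
    rw [h5, h6]
    push_cast
    field_simp
    ring
  choose e n he hn using hint
  have hm := fun p : Mon s => hex (fun r => (n p r : ℚ))
  choose mp hmp using hm
  have hbound : ∀ (p : Mon s) (w : InfinitePlace K),
      w (θ * nu x p + φ * nu y p - mp p) ≤ C / A := by
    intro p w
    have hA0 : (0 : ℝ) < A := by exact_mod_cast hA
    have h1 : ∀ l, |((Algebra.trace ℚ K ((θ * nu x p + φ * nu y p - mp p) * ω l) : ℚ) : ℝ)| ≤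
        1 / A := by
      intro l
      rw [sub_mul, map_sub, hn, hmp]
      have h2 : ((((e p l : ℚ) / Q + (n p l : ℚ)) - (n p l : ℚ) : ℚ) : ℝ) = (e p l : ℝ) / Q := by
        push_cast; ring
      rw [h2, abs_div]
      have h3 : |(e p l : ℝ)| ≤ J := by
        have := (he p l).le
        exact_mod_cast this
      have hJ : (0 : ℝ) < J := by
        have h4 : 0 < J := by
          rcases Nat.eq_zero_or_pos J with h | h
          · exact absurd (by rw [hQ, h, mul_zero]) (NeZero.ne Q)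
          · exact h
        exact_mod_cast h4
      have hQr : |(Q : ℝ)| = 2 * A * J := by
        rw [hQ]; push_cast; rw [abs_of_nonneg (by positivity)]
      rw [hQr, div_le_div_iff₀ (by positivity) hA0]
      nlinarith [mul_le_mul_of_nonneg_right h3 hA0.le, mul_pos hA0 hJ]
    have h2 := hC _ _ h1 w
    calc w (θ * nu x p + φ * nu y p - mp p) ≤ C * (1 / A) := h2
      _ = C / A := by ring
  refine ⟨θ, φ, fun i l => mp ⟨(min i l, max i l), min_le_max⟩, hθ, hφ, ?_, ?_, ?_⟩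
  · intro i l
    have h1 : (⟨(min i l, max i l), min_le_max⟩ : Mon s) = ⟨(min l i, max l i), min_le_max⟩ := by
      apply Subtype.ext
      exact Prod.ext (min_comm i l) (max_comm i l)
    change mp _ = mp _
    rw [h1]
  · intro i l
    apply hInD
    intro r
    exact ⟨n _ r, by rw [hmp]⟩
  · intro i l w
    have hnu : ∀ v : Fin s → 𝓞 K, nu v ⟨(min i l, max i l), min_le_max⟩ = v i * v l := by
      intro v
      rw [nu]
      rcases le_total i l with h | h
      · simp only [min_eq_left h, max_eq_right h]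
      · simp only [min_eq_right h, max_eq_left h]
        ring
    have h1 := hbound ⟨(min i l, max i l), min_le_max⟩ w
    rw [hnu, hnu] at h1
    have h2 : θ * ((x i * x l : 𝓞 K) : K) + φ * ((y i * y l : 𝓞 K) : K) =
        θ * x i * x l + φ * y i * y l := by
      push_cast; ring
    rw [h2] at h1
    exact h1

end Pool.Agent.H63.RK
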