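import Pool.Agent.H32.RK.TargetsE

/-!
# (RUV) the number of the pairs of nearly proportional vectors
-/

set_option autoImplicit false

open Finset NumberField Pool.Agent.H32.RQ Pool.Agent.H32.RK

namespace Pool.Agent.H63.RK

open Classical in
/-- the elements of `X` whose image is in a disc -/
noncomputable def DD {α : Type} (X : Finset α) (σ : α → ℂ) (θ : ℂ) (η : ℝ) : Finset α :=
  X.filter fun a => ‖σ a - θ‖ ≤ η

theorem mem_DD {α : Type} {X : Finset α} {σ : α → ℂ} {θ : ℂ} {η : ℝ} {a : α} :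
    a ∈ DD X σ θ η ↔ a ∈ X ∧ ‖σ a - θ‖ ≤ η := by
  unfold DD; rw [Finset.mem_filter]

theorem card_DD {α : Type} {e : ℕ} {C A : ℝ} {X : Finset α} {σ : α → ℂ} (h : EqD e C A X σ)
    (hA : 0 < A) (θ : ℂ) {η : ℝ} (hη : 1 ≤ η) :
    ((DD X σ θ η).card : ℝ) ≤ C * (η / A) ^ e * X.card := by
  have h1 := h.2 θ η hη
  have h2 : (0 : ℝ) < A ^ e := by positivity
  have h3 : C * (η / A) ^ e * X.card = (C * η ^ e * X.card) / A ^ e := by
    rw [div_pow]; ring
  rw [h3, le_div_iff₀ h2]
  exact h1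

open Classical in
theorem card_pi' {α : Type} {n : ℕ} (s : Fin n → Finset α) (c : ℝ)
    (h : ∀ l, ((s l).card : ℝ) ≤ c) :
    ((Fintype.piFinset s).card : ℝ) ≤ c ^ n := by
  rw [Fintype.card_piFinset, Nat.cast_prod]
  calc ∏ l, ((s l).card : ℝ) ≤ ∏ _l : Fin n, c :=
        Finset.prod_le_prod (fun l _ => Nat.cast_nonneg _) (fun l _ => h l)
    _ = c ^ n := by simp

open Classical in
theorem card_pi_k' {α : Type} {n : ℕ} (k : Fin n) (m : α) (s : Fin n → Finset α) (c : ℝ)
    (h : ∀ l, ((s l).card : ℝ) ≤ c) :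
    ((Fintype.piFinset fun l => if l = k then {m} else s l).card : ℝ) ≤ c ^ (n - 1) := by
  rw [Fintype.card_piFinset, Nat.cast_prod]
  have hcard : (Finset.univ.filter fun l : Fin n => ¬ l = k).card = n - 1 := by
    rw [Finset.filter_ne' Finset.univ k, Finset.card_erase_of_mem (Finset.mem_univ k)]
    simp
  calc ∏ l, (((if l = k then {m} else s l) : Finset α).card : ℝ)
      ≤ ∏ l : Fin n, (if l = k then 1 else c) := by
        refine Finset.prod_le_prod (fun l _ => Nat.cast_nonneg _) (fun l _ => ?_)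
        by_cases hl : l = k
        · simp [hl]
        · simp only [hl, if_false]; exact h l
    _ = c ^ (n - 1) := by
        rw [Finset.prod_ite]
        simp [hcard]

/-- the number of the elements of a finite set over a fibration -/
theorem card_fib' {α β : Type*} [DecidableEq β] (s : Finset α) (t : Finset β) (f : α → β) (r : ℝ)
    (hf : ∀ x ∈ s, f x ∈ t) (h : ∀ b ∈ t, ((s.filter fun x => f x = b).card : ℝ) ≤ r) :
    (s.card : ℝ) ≤ t.card * r := by
  rw [Finset.card_eq_sum_card_fiberwise hf, Nat.cast_sum]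
  calc ∑ b ∈ t, ((s.filter fun x => f x = b).card : ℝ) ≤ ∑ _b ∈ t, r := Finset.sum_le_sum h
    _ = t.card * r := by rw [Finset.sum_const, nsmul_eq_mul]

open Classical in
/-- large coordinate `k` of `u` with the element `m` -/
theorem large {α : Type} (e n : ℕ) (C K A : ℝ) (N : ℕ) (hC : 1 ≤ C) (hK : 1 ≤ K) (hN : 1 ≤ N)
    (hA : (C + K) * (N : ℝ) ≤ A) (X : Finset α) (σ : α → ℂ) (hE : EqD e C A X σ)
    (a b : Fin n → ℂ) (ha : ∀ j, ‖a j‖ ≤ K * A) (k : Fin n) (m : α)
    (hm : m ∈ X) (hU : A / N ≤ ‖σ m + a k‖)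
    (Z : Finset ((Fin n → α) × (Fin n → α)))
    (hZ : ∀ q ∈ Z, (∀ j, q.1 j ∈ X ∧ q.2 j ∈ X) ∧
      (∀ j l, ‖(σ (q.1 j) + a j) * (σ (q.2 l) + b l) - (σ (q.1 l) + a l) * (σ (q.2 j) + b j)‖ ≤
        K * A ^ 2 / N) ∧ q.1 k = m ∧ ∀ l, ‖σ (q.1 l) + a l‖ ≤ ‖σ (q.1 k) + a k‖) :
    (Z.card : ℝ) ≤ X.card * (C ^ 2 * (K / N) ^ e * (X.card : ℝ) ^ 2) ^ (n - 1) := by
  set U : ℝ := ‖σ m + a k‖ with hUdef
  set η : ℝ := K * A ^ 2 / N with hη
  have hN0 : (0 : ℝ) < N := by exact_mod_cast hN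
  have hN1 : (1 : ℝ) ≤ N := by exact_mod_cast hN
  have hA0 : (0 : ℝ) < A := lt_of_lt_of_le (by positivity) hA
  have hAN : 1 ≤ A / N := by
    rw [le_div_iff₀ hN0]
    nlinarith
  have hU1 : 1 ≤ U := hAN.trans hU
  have hU0 : 0 < U := by linarith
  have hUA : U ≤ (C + K) * A := by
    have h1 := hE.1 m hm
    have h2 := norm_add_le (σ m) (a k)
    have h3 := ha k
    linarith
  have hηU : 1 ≤ η / U := by
    rw [le_div_iff₀ hU0, one_mul, hη, le_div_iff₀ hN0]
    calc U * N ≤ (C + K) * A * N := mul_le_mul_of_nonneg_right hUA hN0.le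
      _ = ((C + K) * N) * A := by ring
      _ ≤ A * A := mul_le_mul_of_nonneg_right hA hA0.le
      _ ≤ K * A ^ 2 := by nlinarith [mul_pos hA0 hA0]
  set c1 : ℝ := C * (U / A) ^ e * X.card with hc1
  set c2 : ℝ := C * ((η / U) / A) ^ e * X.card with hc2
  have hc10 : 0 ≤ c1 := by positivity
  have hc20 : 0 ≤ c2 := by positivity
  let T : Finset ((Fin n → α) × α) :=
    (Fintype.piFinset fun l => if l = k then {m} else DD X σ (-a l) U) ×ˢ X
  have hT : (T.card : ℝ) ≤ c1 ^ (n - 1) * X.card := by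
    rw [Finset.card_product, Nat.cast_mul]
    refine mul_le_mul_of_nonneg_right ?_ (Nat.cast_nonneg _)
    exact card_pi_k' k m (fun l => DD X σ (-a l) U) c1 (fun l => card_DD hE hA0 _ hU1)
  have h1 : (Z.card : ℝ) ≤ T.card * c2 ^ (n - 1) := by
    refine card_fib' Z T (fun q => (q.1, q.2 k)) _ ?_ ?_
    · intro q hq
      obtain ⟨h1, h2, h3, h4⟩ := hZ q hq
      simp only [T, Finset.mem_product, Fintype.mem_piFinset]
      constructor
      · intro l
        by_cases hl : l = k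
        · rw [if_pos hl, Finset.mem_singleton, hl]; exact h3
        · rw [if_neg hl, mem_DD, sub_neg_eq_add]
          have := h4 l
          rw [h3] at this
          exact ⟨(h1 l).1, this⟩
      · exact (h1 k).2
    · rintro ⟨q1, z⟩ _
      by_cases hne : ∃ q ∈ Z, q.1 = q1
      · obtain ⟨q', hq', hq1⟩ := hne
        obtain ⟨_, _, h3', _⟩ := hZ q' hq'
        have hq1k : q1 k = m := by rw [← hq1]; exact h3'
        let c : Fin n → ℂ := fun l =>
          (σ (q1 l) + a l) * (σ z + b k) / (σ m + a k) - b l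
        have hsub : ∀ q ∈ Z.filter fun q => (q.1, q.2 k) = (q1, z), q.2 ∈
            Fintype.piFinset fun l => if l = k then {z} else DD X σ (c l) (η / U) := by
          intro q hq
          rw [Finset.mem_filter] at hq
          obtain ⟨hqZ, hq2⟩ := hq
          simp only [Prod.mk.injEq] at hq2
          obtain ⟨h1, h2, h3, h4⟩ := hZ q hqZ
          rw [Fintype.mem_piFinset]
          intro l
          by_cases hl : l = k
          · rw [if_pos hl, Finset.mem_singleton, hl]; exact hq2.2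
          · rw [if_neg hl, mem_DD]
            refine ⟨(h1 l).2, ?_⟩
            have h5 := h2 k l
            rw [h3, hq2.2, hq2.1] at h5
            have hne0 : σ m + a k ≠ 0 := by
              intro h
              rw [hUdef, h, norm_zero] at hU0
              exact lt_irrefl _ hU0
            have h6 : σ (q.2 l) - c l =
                ((σ m + a k) * (σ (q.2 l) + b l) - (σ (q1 l) + a l) * (σ z + b k)) /
                  (σ m + a k) := by
              simp only [c]
              field_simp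
              ring
            rw [h6, norm_div]
            exact div_le_div_of_nonneg_right h5 hU0.le
        have h7 : (Z.filter fun q => (q.1, q.2 k) = (q1, z)).card ≤
            (Fintype.piFinset fun l => if l = k then {z} else DD X σ (c l) (η / U)).card := by
          refine Finset.card_le_card_of_injOn Prod.snd (fun q hq => hsub q hq) ?_
          intro q hq r hr h
          have hq3 := (Finset.mem_filter.1 (Finset.mem_coe.1 hq)).2
          have hr3 := (Finset.mem_filter.1 (Finset.mem_coe.1 hr)).2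
          simp only [Prod.mk.injEq] at hq3 hr3
          exact Prod.ext (hq3.1.trans hr3.1.symm) h
        refine (Nat.cast_le.2 h7).trans ?_
        exact card_pi_k' k z (fun l => DD X σ (c l) (η / U)) c2
          (fun l => card_DD hE hA0 _ hηU)
      · have : (Z.filter fun q => (q.1, q.2 k) = (q1, z)) = ∅ := by
          rw [Finset.filter_eq_empty_iff]
          intro q hq h
          simp only [Prod.mk.injEq] at h
          exact hne ⟨q, hq, h.1⟩
        rw [this, Finset.card_empty, Nat.cast_zero]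
        positivity
  calc (Z.card : ℝ) ≤ T.card * c2 ^ (n - 1) := h1
    _ ≤ (c1 ^ (n - 1) * X.card) * c2 ^ (n - 1) :=
        mul_le_mul_of_nonneg_right hT (by positivity)
    _ = X.card * (c1 * c2) ^ (n - 1) := by rw [mul_pow c1]; ring
    _ = X.card * (C ^ 2 * (K / N) ^ e * (X.card : ℝ) ^ 2) ^ (n - 1) := by
        have h2 : c1 * c2 = C ^ 2 * (K / N) ^ e * (X.card : ℝ) ^ 2 := by
          have h3 : (U / A) ^ e * ((η / U) / A) ^ e = (K / N) ^ e := by
            rw [← mul_pow]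
            congr 1
            rw [hη]
            field_simp
          rw [hc1, hc2, ← h3]; ring
        rw [h2]

open Classical in
theorem pf_RUV : T_RUV := by
  intro e n C K he hn hC hK
  refine ⟨C + K + C ^ n + n * (C ^ 2 * K ^ e) ^ (n - 1), ?_, ?_⟩
  · have h1 : (0 : ℝ) ≤ C ^ n := by positivity
    have h2 : (0 : ℝ) ≤ n * (C ^ 2 * K ^ e) ^ (n - 1) := by positivity
    linarith
  intro α X σ A N hN hCA hE a b ha hb S hS
  have hN0 : (0 : ℝ) < N := by exact_mod_cast hN
  have hN1 : (1 : ℝ) ≤ N := by exact_mod_cast hN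
  have hA : (C + K) * (N : ℝ) ≤ A := by
    refine le_trans (mul_le_mul_of_nonneg_right ?_ hN0.le) hCA
    have h1 : (0 : ℝ) ≤ C ^ n := by positivity
    have h2 : (0 : ℝ) ≤ n * (C ^ 2 * K ^ e) ^ (n - 1) := by positivity
    linarith
  have hA0 : (0 : ℝ) < A := lt_of_lt_of_le (by positivity) hA
  have hAN : 1 ≤ A / N := by
    rw [le_div_iff₀ hN0]
    nlinarith
  -- the small part
  let S0 : Finset ((Fin n → α) × (Fin n → α)) :=
    (Fintype.piFinset fun l => DD X σ (-a l) (A / N)) ×ˢ (Fintype.piFinset fun _ => X)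
  have hS0 : (S0.card : ℝ) ≤ (C * (1 / N) ^ e * X.card) ^ n * (X.card : ℝ) ^ n := by
    rw [Finset.card_product, Nat.cast_mul]
    refine mul_le_mul ?_ ?_ (Nat.cast_nonneg _) (by positivity)
    · refine card_pi' _ _ ?_
      intro l
      have h1 := card_DD hE hA0 (-a l) hAN
      have h2 : A / N / A = 1 / N := by field_simp
      rwa [h2] at h1
    · exact card_pi' _ _ (fun l => le_rfl)
  -- the large part
  let L : Fin n × α → Finset ((Fin n → α) × (Fin n → α)) := fun km =>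
    S.filter fun q => (q.1 km.1 = km.2 ∧ (∀ l, ‖σ (q.1 l) + a l‖ ≤ ‖σ (q.1 km.1) + a km.1‖)) ∧
      A / N ≤ ‖σ km.2 + a km.1‖
  let I : Finset (Fin n × α) := Finset.univ ×ˢ X
  have hI : (I.card : ℝ) = n * X.card := by
    rw [Finset.card_product, Nat.cast_mul, Finset.card_univ, Fintype.card_fin]
  have hL : ∀ km ∈ I, ((L km).card : ℝ) ≤
      X.card * (C ^ 2 * (K / N) ^ e * (X.card : ℝ) ^ 2) ^ (n - 1) := by
    rintro ⟨k, m⟩ hkm
    by_cases hU : A / N ≤ ‖σ m + a k‖
    · have hm : m ∈ X := (Finset.mem_product.1 hkm).2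
      refine large e n C K A N hC hK hN hA X σ hE a b ha k m hm hU (L (k, m)) ?_
      intro q hq
      simp only [L] at hq
      rw [Finset.mem_filter] at hq
      obtain ⟨h1, h2, _⟩ := hq
      obtain ⟨h3, h4⟩ := hS q h1
      exact ⟨h3, h4, h2.1, h2.2⟩
    · have : L (k, m) = ∅ := by
        simp only [L]
        rw [Finset.filter_eq_empty_iff]
        intro q _ h
        exact hU h.2
      rw [this, Finset.card_empty, Nat.cast_zero]
      positivity
  have hcov : S ⊆ S0 ∪ I.biUnion L := by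
    intro q hq
    obtain ⟨h1, h2⟩ := hS q hq
    obtain ⟨k, _, hk⟩ := Finset.exists_max_image (Finset.univ : Finset (Fin n))
      (fun l => ‖σ (q.1 l) + a l‖) ⟨⟨0, by omega⟩, Finset.mem_univ _⟩
    by_cases hU : A / N ≤ ‖σ (q.1 k) + a k‖
    · refine Finset.mem_union_right _ ?_
      rw [Finset.mem_biUnion]
      refine ⟨(k, q.1 k), ?_, ?_⟩
      · simp only [I, Finset.mem_product, Finset.mem_univ, true_and]
        exact (h1 k).1
      · simp only [L]
        rw [Finset.mem_filter]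
        exact ⟨hq, ⟨rfl, fun l => hk l (Finset.mem_univ l)⟩, hU⟩
    · refine Finset.mem_union_left _ ?_
      simp only [S0, Finset.mem_product, Fintype.mem_piFinset]
      constructor
      · intro l
        rw [mem_DD, sub_neg_eq_add]
        exact ⟨(h1 l).1, (hk l (Finset.mem_univ l)).trans (not_le.1 hU).le⟩
      · intro l
        exact (h1 l).2
  have h1 : (S.card : ℝ) ≤ (C * (1 / N) ^ e * X.card) ^ n * (X.card : ℝ) ^ n +
      (n * X.card) * (X.card * (C ^ 2 * (K / N) ^ e * (X.card : ℝ) ^ 2) ^ (n - 1)) := by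
    have h2 : S.card ≤ S0.card + ∑ km ∈ I, (L km).card := by
      refine (Finset.card_le_card hcov).trans ((Finset.card_union_le _ _).trans ?_)
      exact Nat.add_le_add_left Finset.card_biUnion_le _
    have h3 : (S.card : ℝ) ≤ (S0.card : ℝ) + ∑ km ∈ I, ((L km).card : ℝ) := by
      exact_mod_cast h2
    have h4 : ∑ km ∈ I, ((L km).card : ℝ) ≤
        I.card * (X.card * (C ^ 2 * (K / N) ^ e * (X.card : ℝ) ^ 2) ^ (n - 1)) := by
      calc _ ≤ ∑ _km ∈ I, (X.card * (C ^ 2 * (K / N) ^ e * (X.card : ℝ) ^ 2) ^ (n - 1)) :=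
            Finset.sum_le_sum hL
        _ = _ := by rw [Finset.sum_const, nsmul_eq_mul]
    rw [hI] at h4
    linarith
  obtain ⟨n', rfl⟩ : ∃ n', n = n' + 1 := ⟨n - 1, by omega⟩
  simp only [Nat.add_sub_cancel] at h1 ⊢
  have hx : (0 : ℝ) ≤ (X.card : ℝ) := Nat.cast_nonneg _
  have hNe : (0 : ℝ) < (N : ℝ) ^ e := by positivity
  have hNe1 : (1 : ℝ) ≤ (N : ℝ) ^ e := one_le_pow₀ hN1
  have e1 : ((C * (1 / N) ^ e * X.card) ^ (n' + 1) * (X.card : ℝ) ^ (n' + 1)) *
      (N : ℝ) ^ (e * n') = C ^ (n' + 1) * (X.card : ℝ) ^ (2 * (n' + 1)) * (1 / (N : ℝ) ^ e) := by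
    rw [div_pow, one_pow, mul_pow, mul_pow, div_pow, one_pow, pow_mul (N : ℝ) e n',
      pow_succ ((N : ℝ) ^ e) n']
    field_simp
    ring
  have e2 : ((((n' + 1 : ℕ) : ℝ) * X.card) *
      (X.card * (C ^ 2 * (K / N) ^ e * (X.card : ℝ) ^ 2) ^ n')) * (N : ℝ) ^ (e * n') =
      ((n' + 1 : ℕ) : ℝ) * (C ^ 2 * K ^ e) ^ n' * (X.card : ℝ) ^ (2 * (n' + 1)) := by
    rw [div_pow, mul_pow, mul_pow, div_pow, mul_pow (C ^ 2), pow_mul (N : ℝ) e n']
    field_simp
    ring
  calc (S.card : ℝ) * (N : ℝ) ^ (e * n')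
      ≤ ((C * (1 / N) ^ e * X.card) ^ (n' + 1) * (X.card : ℝ) ^ (n' + 1) +
      (((n' + 1 : ℕ) : ℝ) * X.card) *
        (X.card * (C ^ 2 * (K / N) ^ e * (X.card : ℝ) ^ 2) ^ n')) * (N : ℝ) ^ (e * n') :=
        mul_le_mul_of_nonneg_right h1 (by positivity)
    _ = C ^ (n' + 1) * (X.card : ℝ) ^ (2 * (n' + 1)) * (1 / (N : ℝ) ^ e) +
        ((n' + 1 : ℕ) : ℝ) * (C ^ 2 * K ^ e) ^ n' * (X.card : ℝ) ^ (2 * (n' + 1)) := by
        rw [add_mul, e1, e2]
    _ ≤ C ^ (n' + 1) * (X.card : ℝ) ^ (2 * (n' + 1)) * 1 +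
        ((n' + 1 : ℕ) : ℝ) * (C ^ 2 * K ^ e) ^ n' * (X.card : ℝ) ^ (2 * (n' + 1)) := by
        have h6 : (1 : ℝ) / (N : ℝ) ^ e ≤ 1 := by rw [div_le_one hNe]; exact hNe1
        have h7 := mul_le_mul_of_nonneg_left h6
          (show (0 : ℝ) ≤ C ^ (n' + 1) * (X.card : ℝ) ^ (2 * (n' + 1)) by positivity)
        linarith
    _ ≤ (C + K + C ^ (n' + 1) + ((n' + 1 : ℕ) : ℝ) * (C ^ 2 * K ^ e) ^ n') *
        (X.card : ℝ) ^ (2 * (n' + 1)) := by
        have h8 : (0 : ℝ) ≤ (C + K) * (X.card : ℝ) ^ (2 * (n' + 1)) := by positivity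
        nlinarith

end Pool.Agent.H63.RK
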